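import Pool.Agent.H84.ND.Targets4
import Pool.Agent.H84.SL.All
import Pool.Agent.H1.SL.P1

/-!
# MP_70ba79_ag: row P1N of `ndc_modules` (parametrisation by polynomials, any plane curve)
-/

set_option autoImplicit false

namespace Pool.Agent.H10.ND

open MvPolynomial SC Pool.Agent.H27.LV Pool.Agent.H84.SM Pool.Agent.H84.ND
open Pool.Agent.H1.SL

theorem pf_P1N : T_P1N := by
  classical
  have hGZ := Pool.Agent.H84.SL.A.s_GZ
  intro k _ _ _ G d hd hG K _ _ _ htr D hD x S hprim hcrv hcan
  have hinj := (algebraMap k K).injective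
  -- the degree is positive
  have hpf := pfi k K htr (Fin 3) x
  have hnc : ∃ i, x i ∉ Set.range (algebraMap k K) := by
    by_contra hcon
    push Not at hcon
    have h1 : IntermediateField.adjoin k (Set.range x) ≤ ⊥ := by
      rw [IntermediateField.adjoin_le_iff]
      rintro _ ⟨i, rfl⟩
      exact IntermediateField.mem_bot.2 (hcon i)
    rw [hprim] at h1
    have h2 : Function.Surjective (algebraMap k K) := fun y =>
      IntermediateField.mem_bot.1 (h1 (IntermediateField.mem_top (x := y)))
    have h3 : Algebra.IsAlgebraic k K := ⟨fun y => by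
      obtain ⟨c, rfl⟩ := h2 y
      exact isAlgebraic_algebraMap c⟩
    rw [_root_.trdeg_eq_zero_iff.2 h3] at htr
    exact zero_ne_one htr
  have hpole : ∃ v : DV k K, 1 ≤ poleOrder v x := by
    obtain ⟨i, hi⟩ := hnc
    by_contra hcon
    push Not at hcon
    apply hi
    refine Pool.Agent.H35.SL.const_of htr fun v => ?_
    have h1 := hcon v
    have h2 : (-(v.ord (x i))).toNat ≤ poleOrder v x := by
      unfold poleOrder
      exact Finset.le_sup (f := fun i => (-(v.ord (x i))).toNat) (Finset.mem_univ i)
    right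
    omega
  have hdeg1 : 1 ≤ deg k x := by
    obtain ⟨v, hv⟩ := hpole
    refine hv.trans ?_
    unfold deg
    exact single_le_finsum v hpf fun _ => Nat.zero_le _
  -- `S` is not empty
  have hS : S.Nonempty := by
    by_contra hcon
    rw [Finset.not_nonempty_iff_eq_empty] at hcon
    obtain ⟨h1, h2⟩ := pfm k K htr (aeval x G)
    have h3 : ∀ v : DV k K, v.ord (aeval x G) = -((d : ℤ) * poleOrder v x) := fun v =>
      hcrv.off v (by rw [hcon]; exact Finset.notMem_empty v)
    rw [finsum_congr h3, finsum_neg_distrib, neg_eq_zero] at h2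
    have h4 : {v : DV k K | (d : ℤ) * poleOrder v x ≠ 0}.Finite := by
      refine hpf.subset fun v hv => ?_
      intro h
      apply hv
      rw [h, Nat.cast_zero, mul_zero]
    obtain ⟨v, hv⟩ := hpole
    have h5 : (d : ℤ) * poleOrder v x ≤ ∑ᶠ v : DV k K, (d : ℤ) * poleOrder v x :=
      single_le_finsum v h4 fun v => by positivity
    rw [h2] at h5
    have h6 : (0 : ℤ) < (d : ℤ) * poleOrder v x := by positivity
    omega
  have hcan2 := p1_can k K htr D hD
  have hcard : S.card ≤ 2 := by omega
  have hcard1 : 1 ≤ S.card := Finset.card_pos.2 hS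
  obtain ⟨P, hPS⟩ := hS
  obtain ⟨f, hf1, hf2, hf3, hf4⟩ := hGZ k K htr D hD (by omega) P
  -- the coordinate `t`
  obtain ⟨c0, hc0⟩ : ∃ c : k, ∀ v ∈ S, v ≠ P → ge v 1 (f - algebraMap k K c) := by
    by_cases hQ : ∃ Q ∈ S, Q ≠ P
    · obtain ⟨Q, hQS, hQP⟩ := hQ
      have h1 : 0 ≤ Q.ord f := by
        rcases hf2 Q hQP with h | h
        · rw [h, Q.ord_zero]
        · exact h
      obtain ⟨c, hc⟩ := (rat k K htr Q).2 f h1
      refine ⟨c, fun v hv hvP => ?_⟩
      have h2 : v = Q := by
        by_contra hvQ
        have h3 : ({P, Q, v} : Finset (DV k K)) ⊆ S := by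
          intro w hw
          rw [Finset.mem_insert, Finset.mem_insert, Finset.mem_singleton] at hw
          rcases hw with rfl | rfl | rfl <;> assumption
        have h4 := Finset.card_le_card h3
        rw [Finset.card_insert_of_notMem, Finset.card_insert_of_notMem,
          Finset.card_singleton] at h4
        · omega
        · rw [Finset.mem_singleton]; exact fun h => hvQ h.symm
        · rw [Finset.mem_insert, Finset.mem_singleton]
          rintro (h | h)
          · exact hQP h.symm
          · exact hvP h.symm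
      rw [h2]
      exact hc
    · push Not at hQ
      exact ⟨0, fun v hv hvP => absurd (hQ v hv) hvP⟩
  obtain ⟨t, ht⟩ : ∃ t, t = f - algebraMap k K c0 := ⟨_, rfl⟩
  rw [← ht] at hc0
  have hft : f = t + algebraMap k K c0 := by rw [ht]; ring
  have hf0 : f ≠ 0 := by
    rintro rfl
    rw [P.ord_zero] at hf1
    omega
  have hPt : P.ord t = -1 := by
    have h1 := P.ord_add_eq_left (x := f) (y := -(algebraMap k K c0)) hf0
      (fun _ => by rw [P.ord_neg, P.ord_base, hf1]; omega)
    rw [← sub_eq_add_neg, ← ht, hf1] at h1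
    exact h1.2
  have ht0 : t ≠ 0 := by
    rintro rfl
    rw [P.ord_zero] at hPt
    omega
  have htreg : ∀ v : DV k K, v ≠ P → ge v 0 t := by
    intro v hv
    rw [ht]
    exact (hf2 v hv).sub (ge_const v c0)
  have htt : Transcendental k t := by
    intro h
    apply hf3
    rw [hft]
    exact h.add (isAlgebraic_algebraMap c0)
  have httop : IntermediateField.adjoin k {t} = ⊤ := by
    rw [eq_top_iff, ← hf4, IntermediateField.adjoin_le_iff, Set.singleton_subset_iff]
    rw [hft]
    exact add_mem (IntermediateField.mem_adjoin_simple_self k t)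
      (IntermediateField.algebraMap_mem _ c0)
  -- polynomials
  obtain ⟨j1, hj1⟩ := hcrv.one
  obtain ⟨p, h, z, hz, hx, hhp⟩ := p1_coprime k K t htt httop x ⟨j1, by rw [hj1]; exact one_ne_zero⟩
  have hhpt : ∑ i, Polynomial.aeval t (h i) * Polynomial.aeval t (p i) = 1 := by
    have := congrArg (Polynomial.aeval t) hhp
    rw [map_sum, map_one] at this
    rw [← this]
    exact Finset.sum_congr rfl fun i _ => (map_mul _ _ _).symm
  have hunit : ∀ v : DV k K, v ≠ P → ∃ i, Polynomial.aeval t (p i) ≠ 0 ∧
      v.ord (Polynomial.aeval t (p i)) = 0 := by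
    intro v hv
    by_contra hcon
    push Not at hcon
    have h1 : ∀ i, ge v 1 (Polynomial.aeval t (p i)) := by
      intro i
      rcases p1_ge (htreg v hv) (p i) with h | h
      · exact Or.inl h
      · by_cases h2 : Polynomial.aeval t (p i) = 0
        · exact Or.inl h2
        · have := hcon i h2
          right
          omega
    have h2 : ge v 1 (1 : K) := by
      rw [← hhpt]
      refine ge_sum v _ _ _ fun i _ => ?_
      have := (p1_ge (htreg v hv) (h i)).mul (h1 i)
      rwa [zero_add] at this
    rcases h2 with h2 | h2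
    · exact one_ne_zero h2
    · rw [v.ord_one] at h2
      omega
  obtain ⟨e, he⟩ : ∃ e, e = Finset.univ.sup fun i => (p i).natDegree := ⟨_, rfl⟩
  have hle : ∀ i, (p i).natDegree ≤ e := fun i => by
    rw [he]
    exact Finset.le_sup (f := fun i => (p i).natDegree) (Finset.mem_univ i)
  have hmax : ∃ i, p i ≠ 0 ∧ (p i).natDegree = e := by
    obtain ⟨i, _, hi⟩ := Finset.exists_mem_eq_sup (Finset.univ : Finset (Fin 3))
      Finset.univ_nonempty (fun i => (p i).natDegree)
    rw [← he] at hi
    by_cases h0 : p i = 0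
    · rw [h0, Polynomial.natDegree_zero] at hi
      have h1 : p j1 ≠ 0 := by
        intro h2
        have h3 := hx j1
        rw [h2, map_zero, mul_zero, hj1] at h3
        exact one_ne_zero h3
      refine ⟨j1, h1, ?_⟩
      have := hle j1
      omega
    · exact ⟨i, h0, hi.symm⟩
  have hpo1 : ∀ v : DV k K, v ≠ P → (poleOrder v x : ℤ) = -(v.ord z) := by
    intro v hv
    refine p1_po (fun i => ?_) ?_ hcrv.one
    · rw [neg_neg, hx i]
      have := (ge_of_ord (v := v) (x := z)).mul (p1_ge (htreg v hv) (p i))
      rwa [add_zero] at this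
    · obtain ⟨i, h1, h2⟩ := hunit v hv
      refine ⟨i, ?_, ?_⟩
      · rw [hx i]; exact mul_ne_zero hz h1
      · rw [hx i, v.ord_mul' hz h1, h2, neg_neg, add_zero]
  have hpo2 : (poleOrder P x : ℤ) = -(P.ord z) + e := by
    refine p1_po (fun i => ?_) ?_ hcrv.one
    · by_cases h0 : p i = 0
      · left
        rw [hx i, h0, map_zero, mul_zero]
      · right
        obtain ⟨h1, h2⟩ := p1_pole hPt _ (p i) h0 rfl
        rw [hx i, P.ord_mul' hz h1, h2]
        have := hle i
        omega
    · obtain ⟨i, h0, h1⟩ := hmax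
      obtain ⟨h2, h3⟩ := p1_pole hPt _ (p i) h0 rfl
      refine ⟨i, ?_, ?_⟩
      · rw [hx i]; exact mul_ne_zero hz h2
      · rw [hx i, P.ord_mul' hz h2, h3, h1]
        ring
  have hdeg : deg k x = e := by
    have h1 : ((deg k x : ℕ) : ℤ) = ∑ᶠ v : DV k K, (poleOrder v x : ℤ) := by
      unfold deg
      exact (Nat.castAddMonoidHom ℤ).map_finsum hpf
    have h2 : ∀ v : DV k K, (poleOrder v x : ℤ) = -(v.ord z) + if v = P then (e : ℤ) else 0 := by
      intro v
      by_cases hv : v = P
      · rw [if_pos hv, hv]; exact hpo2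
      · rw [if_neg hv, add_zero]; exact hpo1 v hv
    obtain ⟨h3, h4⟩ := pfm k K htr z
    have h5 : {v : DV k K | -(v.ord z) ≠ 0}.Finite := by
      refine h3.subset fun v hv => ?_
      intro h
      apply hv
      rw [h, neg_zero]
    have h6 : {v : DV k K | (if v = P then (e : ℤ) else 0) ≠ 0}.Finite := by
      refine (Set.finite_singleton P).subset fun v hv => ?_
      by_contra hvP
      exact hv (if_neg hvP)
    have h7 : ∑ᶠ v : DV k K, (if v = P then (e : ℤ) else 0) = e := by
      rw [finsum_eq_single _ P fun v hv => if_neg hv, if_pos rfl]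
    have h8 : ((deg k x : ℕ) : ℤ) = e := by
      rw [h1, finsum_congr h2, finsum_add_distrib h5 h6, finsum_neg_distrib, h4, h7, neg_zero,
        zero_add]
    exact_mod_cast h8
  -- the form
  have hGx : aeval x G = z ^ d * Polynomial.aeval t (aeval p G) := by
    have h1 : x = fun i => z * Polynomial.aeval t (p i) := funext hx
    have h2 : aeval (fun i => Polynomial.aeval t (p i)) G = Polynomial.aeval t (aeval p G) := by
      have h3 : ((Polynomial.aeval t : Polynomial k →ₐ[k] K).comp (aeval p)) =
          aeval (fun i => Polynomial.aeval t (p i)) := by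
        refine MvPolynomial.algHom_ext fun i => ?_
        simp
      rw [← h3]
      rfl
    rw [← h2, ← Pool.Agent.H19.SL.aeval_smul_hom G d hG z]
    exact congrArg (fun y => aeval y G) h1
  have hG0 : aeval p G ≠ 0 := by
    intro h0
    apply hcrv.ne
    rw [hGx, h0, map_zero, mul_zero]
  have hroot : ∀ a, (aeval p G).IsRoot a → a = 0 := by
    intro a ha
    by_contra ha0
    obtain ⟨q, hq⟩ := Polynomial.dvd_iff_isRoot.2 ha
    have hPta : P.ord (t - algebraMap k K a) = -1 := by
      have h1 := P.ord_add_eq_left (x := t) (y := -(algebraMap k K a)) ht0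
        (fun _ => by rw [P.ord_neg, P.ord_base, hPt]; omega)
      rw [← sub_eq_add_neg, hPt] at h1
      exact h1.2
    obtain ⟨v, hv⟩ := p1_zero k K htr (t - algebraMap k K a) P (by omega)
    have hvP : v ≠ P := by
      rintro rfl
      omega
    have hvS : v ∉ S := by
      intro hvS
      have h1 : ge v 1 (algebraMap k K a) := by
        have h2 := (hc0 v hvS hvP).sub (show ge v 1 (t - algebraMap k K a) from Or.inr (by omega))
        rwa [sub_sub_cancel] at h2
      exact ha0 (const_eq_zero v one_pos h1)
    have h1 := hcrv.off v hvS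
    have h2 : Polynomial.aeval t (aeval p G) ≠ 0 := by
      intro h0
      apply hcrv.ne
      rw [hGx, h0, mul_zero]
    have h3 : ge v 1 (Polynomial.aeval t (aeval p G)) := by
      rw [hq, map_mul, map_sub, Polynomial.aeval_X, Polynomial.aeval_C]
      have := (show ge v 1 (t - algebraMap k K a) from Or.inr (by omega)).mul
        (p1_ge (htreg v hvP) q)
      rwa [add_zero] at this
    have h4 : 1 ≤ v.ord (Polynomial.aeval t (aeval p G)) := h3.resolve_left h2
    rw [hGx, v.ord_mul' (pow_ne_zero d hz) h2, v.ord_pow, hpo1 v hvP] at h1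
    have h5 : -((d : ℤ) * -(v.ord z)) = d * v.ord z := by ring
    rw [h5] at h1
    omega
  obtain ⟨c, m, hc, hm⟩ := p1_mono k _ hG0 hroot
  refine ⟨p, t, z, c, m, hz, hc, hx, hdeg1, ?_, ?_, ?_, hm⟩
  · intro i
    rw [hdeg]
    exact hle i
  · obtain ⟨i, h0, h1⟩ := hmax
    refine ⟨i, ?_⟩
    rw [hdeg, ← h1]
    exact Polynomial.leadingCoeff_ne_zero.2 h0
  · by_contra hcon
    push Not at hcon
    have h1 := congrArg (Polynomial.eval 0) hhp
    rw [Polynomial.eval_finsetSum, Polynomial.eval_one] at h1
    rw [Finset.sum_eq_zero] at h1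
    · exact zero_ne_one h1
    · intro i _
      rw [Polynomial.eval_mul, ← Polynomial.coeff_zero_eq_eval_zero (p i), hcon i, mul_zero]

end Pool.Agent.H10.ND
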