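import Pool.Agent.H84.ND.Targets4
import Pool.Agent.H11.SL.X1

/-!
# MP_70ba79_ag: row X1N of `ndc_modules` (curves of bounded degree, not of log general type)
-/

set_option autoImplicit false

namespace Pool.Agent.H10.ND

open MvPolynomial SC Pool.Agent.H27.LV Pool.Agent.H84.SM Pool.Agent.H84.ND
open Pool.Agent.H11.SL (aeval_scale natDegree_aeval_le)

theorem pf_X1N (hP1N : T_P1N) (hFLN : T_FLN) : T_X1N := by
  intro k _ _ _ G d hd hS hN e0
  have hF := hFLN k G d hd hS hN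
  choose! N Ψ h0 hh hΨ using hF
  have hmem : ∀ I ∈ Finset.Icc 1 e0 ×ˢ Finset.range (d * e0 + 1), 1 ≤ I.1 := by
    intro I hI
    exact (Finset.mem_Icc.1 (Finset.mem_product.1 hI).1).1
  refine ⟨∑ I ∈ Finset.Icc 1 e0 ×ˢ Finset.range (d * e0 + 1), N I.1 I.2,
    ∏ I ∈ Finset.Icc 1 e0 ×ˢ Finset.range (d * e0 + 1), Ψ I.1 I.2, ?_, ?_, ?_⟩
  · exact Finset.prod_ne_zero_iff.2 fun I hI => h0 I.1 I.2 (hmem I hI)
  · exact IsHomogeneous.prod _ _ _ fun I hI => hh I.1 I.2 (hmem I hI)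
  · intro K _ _ _ htr D hD x S hPr hCrv hdeg hneg
    obtain ⟨p, t, z, c, m, hz, hc, hx, he, hpd, hpe, hp0, hG⟩ :=
      hP1N k G d (by omega) hS K htr D hD x S hPr hCrv hneg
    have hm : m ≤ d * e0 := by
      have h1 := natDegree_aeval_le G d (deg k x) hS p hpd
      rw [hG, Polynomial.natDegree_C_mul_X_pow m c hc] at h1
      exact h1.trans (Nat.mul_le_mul_left d hdeg)
    have hI : (deg k x, m) ∈ Finset.Icc 1 e0 ×ˢ Finset.range (d * e0 + 1) :=
      Finset.mem_product.2 ⟨Finset.mem_Icc.2 ⟨he, hdeg⟩, Finset.mem_range.2 (by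
        show m < d * e0 + 1
        omega)⟩
    have h1 := hΨ (deg k x) m he p c hc hpd hpe hp0 hG
    have h2 : aeval x (Ψ (deg k x) m) = 0 := by
      have h3 : x = fun i => z * Polynomial.aeval t (p i) := funext hx
      rw [h3, aeval_scale _ _ (hh _ _ (by rw [← h3]; exact he))]
      have h4 : aeval (fun i => Polynomial.aeval t (p i)) (Ψ (deg k x) m) =
          Polynomial.aeval t (aeval p (Ψ (deg k x) m)) := by
        rw [← comp_aeval_apply]
      rw [← h3, h4, h1, map_zero, mul_zero]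
    rw [map_prod]
    exact Finset.prod_eq_zero hI h2

end Pool.Agent.H10.ND
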